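import Mathlib
import Pool.Agent.Helper51.EW.Defs

/-!
# Isotrivial Weierstrass models
-/

namespace Pool.Agent.Helper51.EW

open VC VF Function

universe u

variable {k : Type u} [Field k]

/-- Data exhibiting a Weierstrass model as a twist of a constant elliptic curve
`y ^ 2 = x ^ 3 + a x + b`, with a zero `e1` of `A` and `B`: over the points `e0 + T e1` the surface
is obtained by twisting with `f (T) ^ (1 / m)`. -/
structure Core (W : Wei k) where
  e0 : Fin 2 → k
  e1 : Fin 2 → k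
  span : ∀ r : Fin 2 → k, ∃ s t : k, ∀ i, r i = s * e0 i + t * e1 i
  a : k
  b : k
  hE : 4 * a ^ 3 + 27 * b ^ 2 ≠ 0
  m : ℕ
  hm0 : m ≠ 0
  hm : Even m
  e4 : ℕ
  e6 : ℕ
  h4 : a = 0 ∨ m * e4 = 4
  h6 : b = 0 ∨ m * e6 = 6
  f : Polynomial k
  hf0 : f ≠ 0
  hf : f.natDegree < m * W.N
  roots : ∀ q : Polynomial k, q ≠ 0 → q.degree < W.N → ∃ r, f.IsRoot r ∧ q.eval r ≠ 0
  A1 : MvPolynomial.aeval e1 W.A = 0
  B1 : MvPolynomial.aeval e1 W.B = 0
  A0 : ∀ (K : Type u) [Field K] [Algebra k K] (T v : K), v ^ m = Polynomial.aeval T f →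
    MvPolynomial.aeval (fun i => algebraMap k K (e0 i) + T * algebraMap k K (e1 i)) W.A =
      algebraMap k K a * v ^ 4
  B0 : ∀ (K : Type u) [Field K] [Algebra k K] (T v : K), v ^ m = Polynomial.aeval T f →
    MvPolynomial.aeval (fun i => algebraMap k K (e0 i) + T * algebraMap k K (e1 i)) W.B =
      algebraMap k K b * v ^ 6

end Pool.Agent.Helper51.EW
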