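import Mathlib
import Pool.Agent.Helper9.NS
import Pool.Agent.Helper83.VF.Fields

/-!
# The function field of the path
-/

set_option linter.unusedSectionVars false

namespace Pool.Agent.Helper51.EW

open VC VF Function Polynomial

universe u

/-- Two families with the same monic polynomial differ by a permutation. -/
lemma exists_perm_of_prod {F : Type*} [Field F] {N : ℕ} {t s : Fin N → F}
    (h : ∏ i, (X - C (t i)) = ∏ i, (X - C (s i))) :
    ∃ σ : Equiv.Perm (Fin N), ∀ i, t i = s (σ i) := by
  classical
  have h1 : (Finset.univ.val.map t : Multiset F) = Finset.univ.val.map s := by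
    have e : ∀ t : Fin N → F, (∏ i, (X - C (t i))).roots = Finset.univ.val.map t := by
      intro t
      have : (∏ i, (X - C (t i))) = ((Finset.univ.val.map t).map fun a => X - C a).prod := by
        rw [Multiset.map_map]
        rfl
      rw [this, roots_multiset_prod_X_sub_C]
    rw [← e t, ← e s, h]
  have h2 : ∀ c, Fintype.card {i // t i = c} = Fintype.card {i // s i = c} := by
    intro c
    have h3 := congrArg (Multiset.count c) h1
    rw [Multiset.count_map, Multiset.count_map] at h3
    rw [Fintype.card_subtype, Fintype.card_subtype]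
    have e : ∀ t : Fin N → F, (Finset.univ.filter fun i => t i = c).card =
        Multiset.card (Multiset.filter (fun a => c = t a) Finset.univ.val) := by
      intro t
      rw [Finset.card_def, Finset.filter_val]
      congr 1
      apply Multiset.filter_congr
      intro i _
      exact eq_comm
    rw [e, e, h3]
  choose e _ using fun c => (Fintype.card_eq.mp (h2 c)).elim (fun e => (⟨e, trivial⟩ :
    ∃ _ : {i // t i = c} ≃ {i // s i = c}, True))
  refine ⟨(Equiv.sigmaFiberEquiv t).symm.trans
    ((Equiv.sigmaCongrRight e).trans (Equiv.sigmaFiberEquiv s)), fun i => ?_⟩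
  exact ((e (t i)) ⟨i, rfl⟩).2.symm

/-- A root of unity of a field containing `k` lies in `k`. -/
lemma exists_root_of_unity {k K : Type*} [Field k] [IsAlgClosed k] [CharZero k] [Field K]
    [Algebra k K] {m : ℕ} (hm : m ≠ 0) {z : K} (hz : z ^ m = 1) :
    ∃ c : k, c ^ m = 1 ∧ algebraMap k K c = z := by
  have : NeZero (m : k) := ⟨Nat.cast_ne_zero.2 hm⟩
  obtain ⟨ζ, hζ⟩ := HasEnoughRootsOfUnity.exists_primitiveRoot k m
  have h1 := X_pow_sub_one_eq_prod (Nat.pos_of_ne_zero hm) hζ
  have h2 := congrArg (aeval z) h1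
  rw [map_sub, map_pow, aeval_X, map_one, hz, sub_self, map_prod] at h2
  obtain ⟨c, hc, hc'⟩ := Finset.prod_eq_zero_iff.mp h2.symm
  rw [map_sub, aeval_X, aeval_C, sub_eq_zero] at hc'
  exact ⟨c, (mem_nthRootsFinset (Nat.pos_of_ne_zero hm) _).mp hc, hc'.symm⟩

/-- A monic polynomial which splits is a product of linear factors, indexed by `Fin`. -/
lemma exists_fin_roots {F : Type*} [Field F] {N : ℕ} {P : F[X]} (hP : P.Monic)
    (hd : P.natDegree = N) (hs : P.Splits) : ∃ t : Fin N → F, P = ∏ i, (X - C (t i)) := by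
  classical
  have h1 := hs.eq_prod_roots
  rw [hP.leadingCoeff, C_1, one_mul] at h1
  have h2 : Multiset.card P.roots = N := by
    rw [← hd]
    exact hs.natDegree_eq_card_roots.symm
  obtain ⟨l, hl⟩ := Quot.exists_rep P.roots
  have hl' : (l : Multiset F) = P.roots := hl
  have h3 : l.length = N := by
    rw [← h2, ← hl']
    rfl
  subst h3
  refine ⟨fun i => l.get i, ?_⟩
  rw [h1, ← hl', Multiset.map_coe, Multiset.prod_coe, ← List.prod_ofFn]
  congr 1
  apply List.ext_get
  · simp
  · intro n h1 h2
    simp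

/-- The function field: it contains a variable `w`, the roots of the pencil
`∏ (X - T i) + ρ (w) q`, roots of the values of `f` at them and roots of the `H i (w)`. -/
theorem exists_field {k : Type u} [Field k] [IsAlgClosed k] [CharZero k] {N m : ℕ} (hN : 0 < N)
    (hm : m ≠ 0) (f q ρ ω D : k[X]) (T : Fin N → k) (H : Fin N → k[X]) (w0 : k)
    (hq : q.degree < N) (hH : ∀ i, (H i).eval w0 = 1) (hω : ω.eval w0 = 1)
    (hD : ω ^ m * D = ∏ i, H i) (z : k) (hz : z ^ m = ∏ i, f.eval (T i)) (hz0 : z ≠ 0)
    (hf : ∀ (K : Type u) [Field K] [Algebra k K] (w : K) (t : Fin N → K),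
        (∏ i, (X - C (t i)) = (∏ i, (X - C (T i))).map (algebraMap k K) +
          C (aeval w ρ) * q.map (algebraMap k K)) →
        ∏ i, aeval (t i) f = algebraMap k K (∏ i, f.eval (T i)) * aeval w D) :
    ∃ (K : Type u) (_ : Field K) (_ : Algebra k K) (w : K) (t v h : Fin N → K),
      IsFunctionField k K ∧ Transcendental k w ∧
      (∏ i, (X - C (t i)) = (∏ i, (X - C (T i))).map (algebraMap k K) +
          C (aeval w ρ) * q.map (algebraMap k K)) ∧
      (∀ i, v i ^ m = aeval (t i) f) ∧ (∀ i, h i ^ m = aeval w (H i)) ∧ (∀ i, h i ≠ 0) ∧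
      aeval w ω * ∏ i, v i = algebraMap k K z * ∏ i, h i := by
  classical
  set P : (RatFunc k)[X] := (∏ i, (X - C (T i))).map (algebraMap k (RatFunc k)) +
    C (aeval (RatFunc.X : RatFunc k) ρ) * q.map (algebraMap k (RatFunc k)) with hP
  have hmon : (∏ i, (X - C (T i))).Monic := monic_prod_of_monic _ _ fun i _ => monic_X_sub_C _
  have hdeg : (∏ i, (X - C (T i))).natDegree = N := by
    rw [natDegree_prod_of_monic _ _ fun i _ => monic_X_sub_C _]
    simp
  have hdegq : (C (aeval (RatFunc.X : RatFunc k) ρ) * q.map (algebraMap k (RatFunc k))).degree <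
      ((∏ i, (X - C (T i))).map (algebraMap k (RatFunc k))).degree := by
    rw [degree_map, degree_eq_natDegree hmon.ne_zero, hdeg]
    refine lt_of_le_of_lt (degree_mul_le _ _) ?_
    refine lt_of_le_of_lt (add_le_add degree_C_le le_rfl) ?_
    rw [zero_add, degree_map]
    exact hq
  have hPmon : P.Monic := (hmon.map _).add_of_left hdegq
  have hPdeg : P.natDegree = N := by
    rw [hP, natDegree_add_eq_left_of_degree_lt hdegq, natDegree_map, hdeg]
  obtain ⟨K₁, _, _, _, _, hK₁, hsp⟩ := exists_splits (ff_ratFunc (k := k)) P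
  obtain ⟨t, ht⟩ := exists_fin_roots (hPmon.map (algebraMap (RatFunc k) K₁))
    (by rw [natDegree_map, hPdeg]) hsp
  obtain ⟨K₂, _, _, _, _, v, hK₂, hv⟩ := exists_roots hK₁ hm (fun i => aeval (t i) f)
  set w₂ : K₂ := algebraMap K₁ K₂ (algebraMap (RatFunc k) K₁ RatFunc.X) with hw₂
  obtain ⟨K, _, _, _, _, h, hK, hh⟩ := exists_roots hK₂ hm (fun i => aeval w₂ (H i))
  set w : K := algebraMap K₂ K w₂ with hw
  set t' : Fin N → K := fun i => algebraMap K₂ K (algebraMap K₁ K₂ (t i)) with ht'
  set v' : Fin N → K := fun i => algebraMap K₂ K (v i) with hv'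
  have hwt : Transcendental k w :=
    (transcendental_algebraMap_iff (algebraMap K₂ K).injective).mpr
      ((transcendental_algebraMap_iff (algebraMap K₁ K₂).injective).mpr
        ((transcendental_algebraMap_iff (algebraMap (RatFunc k) K₁).injective).mpr
          transcendental_ratX))
  have hw' : ∀ p : k[X], aeval w p = algebraMap K₂ K (algebraMap K₁ K₂
      (algebraMap (RatFunc k) K₁ (aeval RatFunc.X p))) := by
    intro p
    rw [hw, hw₂, aeval_algebraMap_apply, aeval_algebraMap_apply, aeval_algebraMap_apply]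
  have hmain : ∏ i, (X - C (t' i)) = (∏ i, (X - C (T i))).map (algebraMap k K) +
          C (aeval w ρ) * q.map (algebraMap k K) := by
    have h1 := congrArg (Polynomial.map ((algebraMap K₂ K).comp (algebraMap K₁ K₂))) ht
    rw [hP, Polynomial.map_add, Polynomial.map_mul, map_C, Polynomial.map_map, Polynomial.map_map,
      Polynomial.map_add, Polynomial.map_mul, map_C, Polynomial.map_map, Polynomial.map_map] at h1
    have e3 : (∏ i, (X - C (t i))).map ((algebraMap K₂ K).comp (algebraMap K₁ K₂)) =
        ∏ i, (X - C (t' i)) := by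
      rw [Polynomial.map_prod]
      apply Finset.prod_congr rfl
      intro i _
      rw [Polynomial.map_sub, map_X, map_C]
      rfl
    have e : ((algebraMap K₂ K).comp (algebraMap K₁ K₂)).comp ((algebraMap (RatFunc k) K₁).comp
        (algebraMap k (RatFunc k))) = algebraMap k K := by
      ext x
      simp only [RingHom.comp_apply]
      rw [← IsScalarTower.algebraMap_apply k (RatFunc k) K₁,
        ← IsScalarTower.algebraMap_apply k K₁ K₂, ← IsScalarTower.algebraMap_apply k K₂ K]
    rw [e, e3, RingHom.comp_apply, ← hw'] at h1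
    exact h1.symm
  have hv2 : ∀ i, v' i ^ m = aeval (t' i) f := by
    intro i
    simp only [hv', ht']
    rw [← map_pow, hv, aeval_algebraMap_apply, aeval_algebraMap_apply]
  have hh2 : ∀ i, h i ^ m = aeval w (H i) := by
    intro i
    rw [hh]
    exact (aeval_algebraMap_apply K w₂ (H i)).symm
  have hh0 : ∀ i, h i ≠ 0 := by
    intro i h0
    have h1 := hh2 i
    rw [h0, zero_pow hm] at h1
    have h2 : H i ≠ 0 := by
      intro h2
      have := hH i
      rw [h2, eval_zero] at this
      exact zero_ne_one this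
    exact aeval_ne_zero hwt h2 h1.symm
  have hpr0 : (algebraMap k K z * ∏ i, h i) ≠ 0 :=
    mul_ne_zero ((_root_.map_ne_zero _).mpr hz0) (Finset.prod_ne_zero_iff.mpr fun i _ => hh0 i)
  have hzeta : (aeval w ω * ∏ i, v' i) ^ m = (algebraMap k K z * ∏ i, h i) ^ m := by
    rw [mul_pow, mul_pow, ← Finset.prod_pow, ← Finset.prod_pow, Finset.prod_congr rfl
      fun i _ => hv2 i, Finset.prod_congr rfl fun i _ => hh2 i, hf K w t' hmain, ← map_prod,
      ← hD, map_mul, map_pow, ← map_pow (algebraMap k K), hz]
    ring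
  obtain ⟨c, hc, hc'⟩ := exists_root_of_unity (k := k) hm (z := (aeval w ω * ∏ i, v' i) /
    (algebraMap k K z * ∏ i, h i)) (by rw [div_pow, hzeta, div_self (pow_ne_zero _ hpr0)])
  have hc0 : c ≠ 0 := by
    rintro rfl
    rw [zero_pow hm] at hc
    exact zero_ne_one hc
  have hcK : algebraMap k K c ≠ 0 := (_root_.map_ne_zero _).mpr hc0
  refine ⟨K, inferInstance, inferInstance, w, t', v', update h ⟨0, hN⟩
    (algebraMap k K c * h ⟨0, hN⟩), hK, hwt, hmain, hv2, ?_, ?_, ?_⟩
  · intro i
    by_cases hi : i = ⟨0, hN⟩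
    · subst hi
      rw [update_self, mul_pow, ← map_pow, hc, map_one, one_mul, hh2]
    · rw [update_of_ne hi, hh2]
  · intro i
    by_cases hi : i = ⟨0, hN⟩
    · subst hi
      rw [update_self]
      exact mul_ne_zero hcK (hh0 _)
    · rw [update_of_ne hi]
      exact hh0 i
  · have h1 : ∏ i, update h ⟨0, hN⟩ (algebraMap k K c * h ⟨0, hN⟩) i =
        algebraMap k K c * ∏ i, h i := by
      rw [Finset.prod_update_of_mem (Finset.mem_univ _), mul_assoc]
      congr 1
      rw [← Finset.mul_prod_erase Finset.univ h (Finset.mem_univ ⟨0, hN⟩)]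
      congr 1
      apply Finset.prod_congr _ (fun _ _ => rfl)
      ext i
      simp
    rw [h1, hc']
    have e5 : algebraMap k K z * ((aeval w ω * ∏ i, v' i) / (algebraMap k K z * ∏ i, h i) *
        ∏ i, h i) = (aeval w ω * ∏ i, v' i) / (algebraMap k K z * ∏ i, h i) *
        (algebraMap k K z * ∏ i, h i) := by ring
    rw [e5, div_mul_cancel₀ _ hpr0]

end Pool.Agent.Helper51.EW
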