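import Mathlib
import Pool.Agent.Helper9.NS
import Pool.Agent.Helper51.EW.Field
import Pool.Agent.Helper51.EW.Sym
import Pool.Agent.Helper83.VF.Swap
import Pool.Agent.Helper94.EW.Pencil

/-!
# The path along a pencil
-/

set_option linter.unusedSectionVars false

namespace Pool.Agent.Helper51.EW

open VC VF Function Polynomial
open Pool.Agent.Helper94.EW (exists_pencil)

universe u

lemma IsRes.prod' {k K : Type u} [Field k] [Field K] [Algebra k K] {v : Place k K} {ι : Type*}
    (s : Finset ι) {f : ι → K} {g : ι → k} (h : ∀ i ∈ s, IsRes v (f i) (g i)) :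
    IsRes v (∏ i ∈ s, f i) (∏ i ∈ s, g i) := by
  classical
  induction s using Finset.induction_on with
  | empty => simpa using isRes_one
  | insert a s ha ih =>
    rw [Finset.prod_insert ha, Finset.prod_insert ha]
    exact (h a (Finset.mem_insert_self _ _)).mul
      (ih (fun i hi => h i (Finset.mem_insert_of_mem hi)))

variable {k : Type u} [Field k] [IsAlgClosed k] [CharZero k]

lemma IsRes.div' {K : Type u} [Field K] [Algebra k K] {v : Place k K} {x y : K} {c d : k}
    (hK : IsFunctionField k K) (h : IsRes v x c) (h' : IsRes v y d) (hd : d ≠ 0) :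
    IsRes v (x / y) (c / d) := by
  rw [div_eq_mul_inv, div_eq_mul_inv]
  exact h.mul (h'.inv hK hd)

/-- The roots of the pencil are regular over finite values of `w`, and their values. -/
lemma pencil_res {K : Type u} [Field K] [Algebra k K] (hK : IsFunctionField k K) {N : ℕ}
    {T : Fin N → k} {q ρ : k[X]} (hq : q.degree < N) {w : K} {t : Fin N → K}
    (hmain : ∏ i, (X - C (t i)) = (∏ i, (X - C (T i))).map (algebraMap k K) +
      C (aeval w ρ) * q.map (algebraMap k K)) (ν : Place k K) {wb : k} (hν : IsRes ν w wb) :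
    ∃ tb : Fin N → k, (∀ i, IsRes ν (t i) (tb i)) ∧
      ∀ z : k, ∏ i, (z - tb i) = ∏ i, (z - T i) + ρ.eval wb * q.eval z := by
  classical
  have hreg : ∀ i, t i ∈ ν.ring := by
    intro i
    let φ : k →+* ν.ring := (algebraMap k K).codRestrict ν.ring.toSubring ν.algebraMap_mem
    have hφ : (algebraMap ν.ring K).comp φ = algebraMap k K := by
      ext x
      rfl
    let P : ν.ring[X] := (∏ i, (X - C (T i))).map φ +
      C (⟨aeval w ρ, (hν.poly (p := ρ)).mem⟩ : ν.ring) * q.map φ
    have hmon : (∏ i, (X - C (T i))).Monic := monic_prod_of_monic _ _ fun i _ => monic_X_sub_C _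
    have hdeg : (∏ i, (X - C (T i))).natDegree = N := by
      rw [natDegree_prod_of_monic _ _ fun i _ => monic_X_sub_C _]
      simp
    have hmon' : P.Monic := by
      apply (hmon.map φ).add_of_left
      rw [degree_map, degree_eq_natDegree hmon.ne_zero, hdeg]
      refine lt_of_le_of_lt (degree_mul_le _ _) ?_
      refine lt_of_le_of_lt (add_le_add degree_C_le le_rfl) ?_
      rw [zero_add, degree_map]
      exact hq
    have hmap : P.map (algebraMap ν.ring K) = ∏ i, (X - C (t i)) := by
      simp only [P]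
      rw [Polynomial.map_add, Polynomial.map_mul, Polynomial.map_map, Polynomial.map_map, hφ,
        map_C, hmain]
      rfl
    have hint : IsIntegral ν.ring (t i) := by
      refine ⟨P, hmon', ?_⟩
      rw [← eval_map, hmap, eval_prod]
      exact Finset.prod_eq_zero (Finset.mem_univ i) (by simp)
    obtain ⟨y, hy⟩ := IsIntegrallyClosed.isIntegral_iff.mp hint
    rw [← hy]
    exact y.2
  choose tb htb using fun i => exists_res hK (hreg i)
  refine ⟨tb, htb, fun z => ?_⟩
  have h1 := congrArg (Polynomial.eval (algebraMap k K z)) hmain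
  rw [eval_prod, eval_add, eval_mul, eval_C, eval_map_algebraMap, eval_map_algebraMap,
    aeval_algebraMap_apply, aeval_algebraMap_apply, coe_aeval_eq_eval, eval_prod] at h1
  simp only [eval_sub, eval_X, eval_C] at h1
  have h2 : IsRes ν (∏ i, (algebraMap k K z - t i)) (∏ i, (z - tb i)) :=
    IsRes.prod' _ fun i _ => (isRes_const z).sub (htb i)
  have h3 : IsRes ν (algebraMap k K (∏ i, (z - T i)) + aeval w ρ * algebraMap k K (q.eval z))
      (∏ i, (z - T i) + ρ.eval wb * q.eval z) :=
    (isRes_const _).add (hν.poly.mul (isRes_const _))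
  rw [h1] at h2
  exact h2.unique h3

variable {W : Wei k} {D : Core W} {Ψ : (W.surface.pow W.N).Pt → k} {T v x y : Fin W.N → k}

theorem core_generic (hN : 0 < W.N) (h : Odd W W.N Ψ) (hV : Valid D T v x y)
    (hT : ∀ i, D.f.eval (T i) ≠ 0) (hy : ∀ i, y i ≠ 0) : G D Ψ T v x y = 0 := by
  classical
  obtain ⟨q, ρ, ω, D', w0, w1, r, H, P, Q, hq, hw01, hρ, hω, h0, hcur, hD, hf, hr, hend⟩ :=
    exists_pencil D.hE D.hm0 D.hm D.h4 D.h6 hN D.hf0 D.hf D.roots T hT x y hV.curve hy
  have hv0 : ∀ i, v i ≠ 0 := by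
    intro i hi
    have := hV.root i
    rw [hi, zero_pow D.hm0] at this
    exact hT i this.symm
  have hz : (∏ i, v i) ^ D.m = ∏ i, D.f.eval (T i) := by
    rw [← Finset.prod_pow]
    exact Finset.prod_congr rfl fun i _ => hV.root i
  have hz0 : ∏ i, v i ≠ 0 := Finset.prod_ne_zero_iff.mpr fun i _ => hv0 i
  obtain ⟨K, _, _, w, t, v', h', hK, hw, hmain, hv', hh', hh0, hprod⟩ :=
    exists_field hN D.hm0 D.f q ρ ω D' T H w0 hq (fun i => (h0 i).1) hω hD _ hz hz0 hf
  -- the curve
  have hcK : ∀ i, (aeval w (Q i) / h' i ^ 3) ^ 2 = (aeval w (P i) / h' i ^ 2) ^ 3 +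
      algebraMap k K D.a * (aeval w (P i) / h' i ^ 2) + algebraMap k K D.b := by
    intro i
    have e1 := congrArg (aeval w) (hcur i)
    simp only [map_add, map_mul, map_pow, aeval_C] at e1
    rw [← hh' i] at e1
    have e4 : algebraMap k K D.a * (h' i ^ D.m) ^ D.e4 = algebraMap k K D.a * h' i ^ 4 := by
      rcases D.h4 with h4 | h4
      · rw [h4, map_zero, zero_mul, zero_mul]
      · rw [← pow_mul, h4]
    have e6 : algebraMap k K D.b * (h' i ^ D.m) ^ D.e6 = algebraMap k K D.b * h' i ^ 6 := by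
      rcases D.h6 with h6 | h6
      · rw [h6, map_zero, zero_mul, zero_mul]
      · rw [← pow_mul, h6]
    rw [e4, e6] at e1
    have := hh0 i
    field_simp
    linear_combination e1
  have heq : ∀ i, (aeval w (Q i) / h' i ^ 3 * v' i ^ 3) ^ 2 =
      (aeval w (P i) / h' i ^ 2 * v' i ^ 2) ^ 3 + MvPolynomial.aeval (bp D (t i)) W.A *
        (aeval w (P i) / h' i ^ 2 * v' i ^ 2) + MvPolynomial.aeval (bp D (t i)) W.B :=
    fun i => tw_eqn (D.A0 K (t i) (v' i) (hv' i)) (D.B0 K (t i) (v' i) (hv' i)) (hcK i)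
  let c : (W.surface.pow W.N).Mor K := fun i => apt W (bp D (t i))
    (aeval w (P i) / h' i ^ 2 * v' i ^ 2) (aeval w (Q i) / h' i ^ 3 * v' i ^ 3)
  have hbp : ∀ (ν : Place k K) (s : K) (sb : k), IsRes ν s sb →
      ∀ l, IsRes ν (bp D s l) (bp D sb l) := by
    intro ν s sb hs l
    exact (isRes_const _).add (hs.mul (isRes_const _))
  refine path h.kills hK c hw hw01 (fun ν hν => ?_) (fun ν hν => ?_)
  · obtain ⟨tb, htb, hpr⟩ := pencil_res hK hq hmain ν hν
    have hpoly : ∏ i, (X - C (tb i)) = ∏ i, (X - C (T i)) := by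
      apply Polynomial.funext
      intro z
      rw [eval_prod, eval_prod]
      simp only [eval_sub, eval_X, eval_C]
      rw [hpr z, hρ, zero_mul, add_zero]
    obtain ⟨σ, hσ⟩ := exists_perm_of_prod hpoly
    have hvb : ∀ i, ∃ e, IsRes ν (v' i) e ∧ e ^ D.m = D.f.eval (tb i) := by
      intro i
      apply exists_res_of_pow hK D.hm0
      rw [hv' i]
      exact (htb i).poly
    have hhb : ∀ i, ∃ e, IsRes ν (h' i) e ∧ e ^ D.m = 1 := by
      intro i
      apply exists_res_of_pow hK D.hm0
      rw [hh' i, ← (h0 i).1]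
      exact hν.poly
    choose vb hvb1 hvb2 using hvb
    choose hb hhb1 hhb2 using hhb
    have hhb0 : ∀ i, hb i ≠ 0 := by
      intro i hi
      have := hhb2 i
      rw [hi, zero_pow D.hm0] at this
      exact zero_ne_one this
    have hval : (W.surface.pow W.N).eval hK c ν =
        fun i => tp D ((T ∘ σ) i) (vb i / hb i) (x i) (y i) := by
      funext i
      change W.surface.eval hK (apt W (bp D (t i)) (aeval w (P i) / h' i ^ 2 * v' i ^ 2)
        (aeval w (Q i) / h' i ^ 3 * v' i ^ 3)) ν = _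
      have hP : IsRes ν (aeval w (P i)) (x i) := by
        rw [← (h0 i).2.1]
        exact hν.poly
      have hQ : IsRes ν (aeval w (Q i)) (y i) := by
        rw [← (h0 i).2.2]
        exact hν.poly
      rw [eval_apt hK ν (heq i) (bp_ne D (tb i)) (hbp ν _ _ (htb i))
        ((IsRes.div' hK hP ((hhb1 i).pow 2) (pow_ne_zero 2 (hhb0 i))).mul ((hvb1 i).pow 2))
        ((IsRes.div' hK hQ ((hhb1 i).pow 3) (pow_ne_zero 3 (hhb0 i))).mul ((hvb1 i).pow 3))]
      unfold tp
      rw [comp_apply, ← hσ i]
      congr 1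
      · rw [div_pow]; ring
      · rw [div_pow]; ring
    have hprodb : ∏ i, vb i = (∏ i, v i) * ∏ i, hb i := by
      have e1 : IsRes ν (aeval w ω * ∏ i, v' i) (1 * ∏ i, vb i) := by
        refine IsRes.mul ?_ (IsRes.prod' _ fun i _ => hvb1 i)
        rw [← hω]
        exact hν.poly
      have e2 : IsRes ν (algebraMap k K (∏ i, v i) * ∏ i, h' i) ((∏ i, v i) * ∏ i, hb i) :=
        (isRes_const _).mul (IsRes.prod' _ fun i _ => hhb1 i)
      rw [hprod] at e1
      have := e1.unique e2
      rwa [one_mul] at this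
    have hV' : Valid D (T ∘ σ) (v ∘ σ) x y := ⟨fun i => hV.root (σ i), hV.curve⟩
    have e1 := G_prod (g := fun i => vb i / hb i / v (σ i)) h hV' (by
      intro i
      rw [div_pow, div_pow, hvb2, hhb2, hV.root, hσ i, div_one, div_self (hT (σ i))]) (by
      rw [Finset.prod_div_distrib, Finset.prod_div_distrib, hprodb, Equiv.prod_comp σ v]
      have hb0 : ∏ i, hb i ≠ 0 := Finset.prod_ne_zero_iff.mpr fun i _ => hhb0 i
      rw [mul_div_cancel_right₀ _ hb0, div_self hz0])
    rw [G_sym h hV σ] at e1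
    rw [hval, ← e1]
    unfold G
    congr 1
    funext i
    simp only [comp_apply]
    rw [div_mul_cancel₀ _ (hv0 (σ i))]
  · obtain ⟨tb, htb, hpr⟩ := pencil_res hK hq hmain ν hν
    have h1 := hpr r
    rw [hend] at h1
    obtain ⟨i, -, hi⟩ := Finset.prod_eq_zero_iff.mp h1
    rw [sub_eq_zero] at hi
    have hu : (bp D (t i) : Fin 2 → K) ≠ 0 := by
      obtain ⟨j, hj⟩ := Function.ne_iff.mp (bp_ne D r)
      intro h2
      have h3 := hbp ν _ _ (htb i) j
      rw [h2, ← hi] at h3
      exact hj (h3.unique isRes_zero)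
    obtain ⟨b, hb1, hb2⟩ := eval_base hK ν (affC (bp D (t i))
      (aeval w (P i) / h' i ^ 2 * v' i ^ 2) (aeval w (Q i) / h' i ^ 3 * v' i ^ 3) hu (heq i))
      (bp_ne D r) (by
        intro j
        have := hbp ν _ _ (htb i) j
        rw [← hi] at this
        exact this)
    have hval : (W.surface.pow W.N).eval hK c ν i = WPt.mk b := by
      change W.surface.eval hK (apt W (bp D (t i)) (aeval w (P i) / h' i ^ 2 * v' i ^ 2)
        (aeval w (Q i) / h' i ^ 3 * v' i ^ 3)) ν = _
      rw [apt_eq hu (heq i)]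
      exact hb2
    have hr0 : (0 : k) ^ D.m = D.f.eval r := by rw [zero_pow D.hm0, hr]
    apply h.zero_of_sing hval
    · rw [hb1, bpA D hr0]
      simp
    · rw [hb1, bpB D hr0]
      simp

end Pool.Agent.Helper51.EW
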